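import Mathlib
import Pool.Agent.H26.PCFQuad

set_option autoImplicit false

open Polynomial

namespace Pool.Agent.Results.MP_505b57_nt.QuadFinite

/-- `f` and `g` are conjugate by an affine map `z ↦ a z + b`, `a ≠ 0`, over the field `K`:
`f ∘ L = L ∘ g`. -/
def AffConj {K : Type} [Field K] (f g : K[X]) : Prop :=
  ∃ a b : K, a ≠ 0 ∧ f.comp (C a * X + C b) = (C a * X + C b).comp g

/-- `f` is postcritically finite: every zero of `f'` in `K` has finite forward orbit under `f`
(used with `K` algebraically closed). -/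
def IsPCF {K : Type} [Field K] (f : K[X]) : Prop :=
  ∀ z : K, f.derivative.eval z = 0 → (Set.range fun n : ℕ => (fun w => f.eval w)^[n] z).Finite

/-- The affine conjugacy class of `f` over `AlgebraicClosure ℚ_[p]` is stable under the Galois
group, i.e. it is a `ℚ_[p]`-rational point of the moduli space. -/
def IsRationalClass (p : ℕ) [Fact p.Prime] (f : (AlgebraicClosure ℚ_[p])[X]) : Prop :=
  ∀ σ : AlgebraicClosure ℚ_[p] ≃ₐ[ℚ_[p]] AlgebraicClosure ℚ_[p],
    AffConj (f.map (σ : AlgebraicClosure ℚ_[p] →+* AlgebraicClosure ℚ_[p])) f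

section quad
variable {K : Type} [Field K] [CharZero K]

/-- the modulus `c` of a quadratic polynomial -/
noncomputable def inv (f : K[X]) : K := f.coeff 2 * f.coeff 0 + f.coeff 1 / 2 - (f.coeff 1) ^ 2 / 4

omit [CharZero K] in
theorem eval_quad (f : K[X]) (hf : f.natDegree = 2) (z : K) :
    f.eval z = f.coeff 2 * z ^ 2 + f.coeff 1 * z + f.coeff 0 := by
  rw [eval_eq_sum_range, hf]
  simp [Finset.sum_range_succ]
  ring

theorem inv_eq (f g : K[X]) (hf : f.natDegree = 2) (hg : g.natDegree = 2) (h : AffConj f g) :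
    inv f = inv g := by
  obtain ⟨a, b, ha, h⟩ := h
  have key : ∀ z : K, f.coeff 2 * (a * z + b) ^ 2 + f.coeff 1 * (a * z + b) + f.coeff 0 =
      a * (g.coeff 2 * z ^ 2 + g.coeff 1 * z + g.coeff 0) + b := by
    intro z
    have := congrArg (fun q => q.eval z) h
    simp only [eval_comp, eval_add, eval_mul, eval_C, eval_X] at this
    rw [eval_quad f hf, eval_quad g hg] at this
    exact this
  have k0 := key 0
  have k1 := key 1
  have k2 := key (-1)
  set α := f.coeff 2
  set β := f.coeff 1
  set γ := f.coeff 0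
  set α' := g.coeff 2
  set β' := g.coeff 1
  set γ' := g.coeff 0
  have e2 : a * α' = α * a ^ 2 := by linear_combination k0 - (1/2) * k1 - (1/2) * k2
  have e1 : a * β' = 2 * α * a * b + β * a := by linear_combination (1/2) * k2 - (1/2) * k1
  have e2' : α' = α * a := by
    apply mul_left_cancel₀ ha; linear_combination e2
  have e1' : β' = 2 * α * b + β := by
    apply mul_left_cancel₀ ha; linear_combination e1
  unfold inv
  show α * γ + β / 2 - β ^ 2 / 4 = α' * γ' + β' / 2 - β' ^ 2 / 4
  rw [e2', e1']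
  linear_combination α * k0

theorem normal_form (f : K[X]) (hf : f.natDegree = 2) :
    ∃ a b : K, a ≠ 0 ∧ f.comp (C a * X + C b) = (C a * X + C b).comp (X ^ 2 + C (inv f)) ∧
      f.derivative.eval b = 0 := by
  have hα : f.coeff 2 ≠ 0 := by
    rw [← hf]
    intro h
    have : f = 0 := leadingCoeff_eq_zero.mp h
    rw [this] at hf; simp at hf
  refine ⟨(f.coeff 2)⁻¹, - f.coeff 1 / (2 * f.coeff 2), inv_ne_zero hα, ?_, ?_⟩
  · apply Polynomial.funext
    intro z
    simp only [eval_comp, eval_add, eval_mul, eval_C, eval_X, eval_pow]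
    rw [eval_quad f hf]
    unfold inv
    field_simp
    ring
  · have e : f = C (f.coeff 2) * X ^ 2 + C (f.coeff 1) * X + C (f.coeff 0) := by
      apply Polynomial.funext
      intro z
      rw [eval_quad f hf]
      simp
    have e' : f.derivative = C (f.coeff 2) * (C 2 * X) + C (f.coeff 1) := by
      have h2 : (C (2:K)) = (1 + 1 : K[X]) := by
        rw [show (2:K) = 1 + 1 by norm_num, C_add, C_1]
      conv_lhs => rw [e]
      simp [h2]
    rw [e']
    simp only [eval_add, eval_mul, eval_C, eval_X]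
    field_simp
    ring

end quad

/-- For every prime `p` there are only finitely many postcritically finite conjugacy classes of
quadratic polynomials that are rational over `ℚ_p`. -/
theorem result : ∀ (p : ℕ) [Fact p.Prime], ∃ S : Finset (AlgebraicClosure ℚ_[p])[X],
    ∀ f : (AlgebraicClosure ℚ_[p])[X], f.natDegree = 2 → IsRationalClass p f → IsPCF f →
      ∃ g ∈ S, AffConj f g := by
  classical
  intro p _
  have hfin := Pool.Agent.H26.PCF.finite_params p
  have : CharZero (AlgebraicClosure ℚ_[p]) :=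
    charZero_of_injective_algebraMap (algebraMap ℚ_[p] (AlgebraicClosure ℚ_[p])).injective
  refine ⟨hfin.toFinset.image (fun c => X ^ 2 + C (algebraMap ℚ_[p] (AlgebraicClosure ℚ_[p]) c)), ?_⟩
  intro f hf hrat hpcf
  obtain ⟨a, b, ha, hab, hcrit⟩ := normal_form f hf
  have hfix : ∀ σ : AlgebraicClosure ℚ_[p] ≃ₐ[ℚ_[p]] AlgebraicClosure ℚ_[p], σ (inv f) = inv f := by
    intro σ
    have hdeg : (f.map (σ : AlgebraicClosure ℚ_[p] →+* AlgebraicClosure ℚ_[p])).natDegree = 2 := by
      rw [natDegree_map]; exact hf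
    have h1 := inv_eq _ _ hdeg hf (hrat σ)
    conv_rhs => rw [← h1]
    unfold inv
    have s2 : σ 2 = 2 := map_ofNat σ 2
    have s4 : σ 4 = 4 := map_ofNat σ 4
    simp [coeff_map, s2, s4]
  obtain ⟨c, hc⟩ := (InfiniteGalois.mem_range_algebraMap_iff_fixed (k := ℚ_[p]) (inv f)).mpr hfix
  refine ⟨X ^ 2 + C (algebraMap ℚ_[p] (AlgebraicClosure ℚ_[p]) c), ?_, ?_⟩
  · rw [Finset.mem_image]
    refine ⟨c, ?_, rfl⟩
    rw [Set.Finite.mem_toFinset]
    show (Set.range (fun n : ℕ => (Pool.Agent.H26.PCF.F c)^[n] 0)).Finite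
    have horb := hpcf b hcrit
    have hstep : ∀ w, f.eval (a * w + b) = a * (w ^ 2 + inv f) + b := by
      intro w
      have := congrArg (fun q => q.eval w) hab
      simpa [eval_comp] using this
    have hit : ∀ n : ℕ, (fun w => f.eval w)^[n] b =
        a * (algebraMap ℚ_[p] (AlgebraicClosure ℚ_[p]) ((Pool.Agent.H26.PCF.F c)^[n] 0)) + b := by
      intro n
      induction n with
      | zero => simp
      | succ n ih =>
        rw [Function.iterate_succ_apply', Function.iterate_succ_apply', ih, hstep, ← hc]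
        unfold Pool.Agent.H26.PCF.F
        rw [map_add, map_pow]
    have hinj : Function.Injective
        (fun x : ℚ_[p] => a * (algebraMap ℚ_[p] (AlgebraicClosure ℚ_[p]) x) + b) := by
      intro x y hxy
      have h1 : a * (algebraMap ℚ_[p] (AlgebraicClosure ℚ_[p]) x) =
          a * (algebraMap ℚ_[p] (AlgebraicClosure ℚ_[p]) y) := add_right_cancel hxy
      exact (algebraMap ℚ_[p] (AlgebraicClosure ℚ_[p])).injective (mul_left_cancel₀ ha h1)
    have h2 : (Set.range fun n : ℕ => (fun w => f.eval w)^[n] b) =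
        (fun x : ℚ_[p] => a * (algebraMap ℚ_[p] (AlgebraicClosure ℚ_[p]) x) + b) ''
          (Set.range (fun n : ℕ => (Pool.Agent.H26.PCF.F c)^[n] 0)) := by
      rw [← Set.range_comp]
      congr 1
      funext n
      exact hit n
    rw [h2] at horb
    exact horb.of_finite_image (hinj.injOn)
  · exact ⟨a, b, ha, by rw [hc]; exact hab⟩

end Pool.Agent.Results.MP_505b57_nt.QuadFinite
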